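import Pool.Agent.W336.CS.All

/-!
# Tarski numbers of groups of cost at least two (MP_354e85_al)

Counting lemmas for random forests.
-/

set_option autoImplicit false
set_option linter.unusedVariables false

open MeasureTheory

namespace Pool.Agent.W246.TN

open Pool.Agent.W336.CS Pool.Agent.W22.CS

/-- counting bridges which start anywhere in `V` -/
theorem cnt' {G : Type} [Group G] [DecidableEq G] (B D V : Finset G) (ω : Cfg G)
    (Z : Finset (G × G))
    (hZ : ∀ e ∈ Z, e.1 ∈ V ∧ e.2 * e.1 ∈ V ∧ ω e = true ∧ Bridge (B : Set G) ω e)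
    (hBD : ∀ b ∈ B, ∀ x ∈ D, b * x ∈ V) :
    (Z.card : ℝ) ≤ ((V \ D).card : ℝ) + D.card / Nat.card (Subgroup.closure (B : Set G)) := by
  classical
  obtain ⟨R, hR, hRr⟩ := exists_reps (Subgroup.closure (B : Set G)) D
  set T : Finset G := (V \ D) ∪ R with hT
  have hTc : (T.card : ℝ) ≤ (V \ D).card + D.card / Nat.card (Subgroup.closure (B : Set G)) := by
    have : (T.card : ℝ) ≤ (V \ D).card + R.card := by exact_mod_cast Finset.card_union_le _ _
    linarith
  refine le_trans ?_ hTc
  -- the linear map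
  let L : (Z → ZMod 2) →ₗ[ZMod 2] (T → ZMod 2) :=
    { toFun := fun c t => ∑ e : Z, c e * fe (B : Set G) ω e t
      map_add' := by
        intro c d
        funext t
        simp only [Pi.add_apply, add_mul, Finset.sum_add_distrib]
      map_smul' := by
        intro a c
        funext t
        simp only [Pi.smul_apply, smul_eq_mul, RingHom.id_apply, Finset.mul_sum, mul_assoc] }
  have hinj : Function.Injective L := by
    rw [← LinearMap.ker_eq_bot, LinearMap.ker_eq_bot']
    intro c hc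
    set f : G → ZMod 2 := fun x => ∑ e : Z, c e * fe (B : Set G) ω e x with hf
    have hfT : ∀ t ∈ T, f t = 0 := fun t ht => congrFun hc ⟨t, ht⟩
    have hfB : ∀ b ∈ B, ∀ x, f (b * x) = f x := by
      intro b hb x
      rw [hf]
      simp only
      refine Finset.sum_congr rfl fun e _ => ?_
      rw [fe_mul (Finset.mem_coe.2 hb)]
    have hf0 : ∀ x ∈ V, x ∉ D → f x = 0 := by
      intro x hx hxD
      apply hfT
      rw [hT, Finset.mem_union, Finset.mem_sdiff]
      exact Or.inl ⟨hx, hxD⟩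
    have hfV : ∀ x ∈ V, f x = 0 := by
      intro x hx
      by_contra hne
      have hxD : x ∈ D := by
        by_contra hxD
        exact hne (hf0 x hx hxD)
      have horb := inv_orbit f hfB hBD hf0 hxD hne
      obtain ⟨u, hu, hur⟩ := hRr x hxD (fun u hu => (horb u hu).1)
      have h1 : f (u * x) = 0 := hfT _ (by rw [hT, Finset.mem_union]; exact Or.inr hur)
      rw [(horb u hu).2] at h1
      exact hne h1
    funext e
    have h1 := hfV _ (hZ e e.2).1
    have h2 := hfV _ (hZ e e.2).2.1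
    have h3 : f (e : G × G).1 - f ((e : G × G).2 * (e : G × G).1) = c e := by
      rw [hf]
      simp only
      rw [← Finset.sum_sub_distrib, Finset.sum_eq_single e]
      · rw [fe_src, fe_tgt (hZ e e.2).2.2.2]
        ring
      · intro e' _ hne
        rw [fe_edge (e := (e' : G × G)) (e' := (e : G × G)) (fun h => hne (Subtype.ext h.symm))
          (hZ e e.2).2.2.1]
        ring
      · intro h
        exact absurd (Finset.mem_univ _) h
    rw [h1, h2] at h3
    simpa using h3.symm
  have h1 := LinearMap.finrank_le_finrank_of_injective hinj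
  rw [Module.finrank_fintype_fun_eq_card, Module.finrank_fintype_fun_eq_card, Fintype.card_coe,
    Fintype.card_coe] at h1
  exact_mod_cast h1

theorem conn_of_labels {G : Type} [Group G] {P : Finset G} {ω₁ ω₂ ω₃ : Cfg G} {a b : G}
    (h1P : ∀ g s : G, ω₁ (g, s) = true → s ∈ P)
    (h3 : ∀ e, ω₃ e = true → ω₁ e = true ∨ ω₂ e = true)
    (h : Conn (∅ : Set G) ω₃ a b) : Conn (P : Set G) ω₂ a b := by
  refine Conn.hull (B := (∅ : Set G)) (fun u hu => absurd hu (by simp)) ?_ h
  intro a s hs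
  rcases h3 _ hs with h | h
  · exact Conn.base (Finset.mem_coe.2 (h1P a s h)) a
  · exact Conn.edge h

/-- a forest with labels in `P` together with a forest relative to `P` -/
theorem det2 {G : Type} [Group G] [DecidableEq G] (P Q A B V : Finset G) (ω₁ ω₂ : Cfg G)
    (h1 : Forest (∅ : Set G) ω₁) (h1P : ∀ g s : G, ω₁ (g, s) = true → s ∈ P)
    (h2 : Forest (P : Set G) ω₂) (hA : A ⊆ V) (hB : B ⊆ V)
    (hPA : ∀ p ∈ P, ∀ x ∈ A, p * x ∈ V) (hQB : ∀ q ∈ Q, ∀ x ∈ B, q * x ∈ V) :
    ((A ×ˢ P).filter (fun e => ω₁ e = true)).card +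
      ((B ×ˢ Q).filter (fun e => ω₂ e = true)).card ≤ V.card := by
  classical
  set ζ : Cfg G := fun e => ω₁ e || ω₂ e with hζ
  have hζf : Forest (∅ : Set G) ζ := by
    refine Pool.Agent.W366.CS.forest_add G ∅ ω₁ ω₂ ζ h1 ?_
    intro e
    constructor
    · intro h
      simp only [hζ, Bool.or_eq_true] at h
      rcases h with h | h
      · exact Or.inl h
      · refine Or.inr ⟨h, fun hcon => h2 e h ?_⟩
        refine conn_of_labels h1P ?_ hcon
        intro e' he'
        simpa using he'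
    · rintro (h | ⟨h, -⟩) <;> simp [hζ, h]
  have hdis : Disjoint ((A ×ˢ P).filter (fun e => ω₁ e = true))
      ((B ×ˢ Q).filter (fun e => ω₂ e = true)) := by
    rw [Finset.disjoint_left]
    intro e he1 he2
    rw [Finset.mem_filter] at he1 he2
    refine h2 e he2.2 ?_
    exact Conn.base (Finset.mem_coe.2 (Finset.mem_product.1 he1.1).2) _
  have hc := cnt' (∅ : Finset G) V V ζ
    (((A ×ˢ P).filter (fun e => ω₁ e = true)) ∪ ((B ×ˢ Q).filter (fun e => ω₂ e = true)))
    (by
      intro e he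
      rw [Finset.mem_union, Finset.mem_filter, Finset.mem_filter, Finset.mem_product,
        Finset.mem_product] at he
      have hz : ζ e = true := by
        rcases he with h | h
        · simp [hζ, h.2]
        · simp [hζ, h.2]
      refine ⟨?_, ?_, hz, ?_⟩
      · rcases he with h | h
        · exact hA h.1.1
        · exact hB h.1.1
      · rcases he with h | h
        · exact hPA _ h.1.2 _ h.1.1
        · exact hQB _ h.1.2 _ h.1.1
      · rw [Finset.coe_empty]
        exact hζf e hz)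
    (by simp)
  rw [Finset.card_union_of_disjoint hdis, Finset.sdiff_self, Finset.card_empty,
    Finset.coe_empty, Subgroup.closure_empty, Subgroup.card_bot] at hc
  have h5 : ((((A ×ˢ P).filter (fun e => ω₁ e = true)).card +
      ((B ×ˢ Q).filter (fun e => ω₂ e = true)).card : ℕ) : ℝ) ≤ (V.card : ℝ) := by
    simpa using hc
  exact_mod_cast h5

/-- a forest relative to `P` generating an infinite group -/
theorem det1 {G : Type} [Group G] [DecidableEq G] (P Q A B V : Finset G) (ω₂ : Cfg G)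
    (hinf : (Subgroup.closure (P : Set G) : Set G).Infinite)
    (h2 : Forest (P : Set G) ω₂) (hA : A ⊆ V) (hB : B ⊆ V)
    (hPA : ∀ p ∈ P, ∀ x ∈ A, p * x ∈ V) (hQB : ∀ q ∈ Q, ∀ x ∈ B, q * x ∈ V) :
    A.card + ((B ×ˢ Q).filter (fun e => ω₂ e = true)).card ≤ V.card := by
  classical
  have hc := cnt' P A V ω₂ ((B ×ˢ Q).filter (fun e => ω₂ e = true))
    (by
      intro e he
      rw [Finset.mem_filter, Finset.mem_product] at he
      exact ⟨hB he.1.1, hQB _ he.1.2 _ he.1.1, he.2, h2 e he.2⟩)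
    hPA
  have h0 : Nat.card (Subgroup.closure (P : Set G)) = 0 := by
    have : Infinite (Subgroup.closure (P : Set G)) := hinf.to_subtype
    exact Nat.card_eq_zero_of_infinite
  rw [h0, Nat.cast_zero, div_zero, add_zero, Finset.card_sdiff_of_subset hA,
    Nat.cast_sub (Finset.card_le_card hA)] at hc
  have h5 : ((A.card + ((B ×ˢ Q).filter (fun e => ω₂ e = true)).card : ℕ) : ℝ) ≤
      (V.card : ℝ) := by
    push_cast
    linarith
  exact_mod_cast h5

theorem meas_edge {G : Type} (e : G × G) : MeasurableSet {ω : Cfg G | ω e = true} :=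
  measurableSet_eq_fun (measurable_pi_apply _) measurable_const

theorem count_eq {G : Type} [DecidableEq G] (E : Finset (G × G)) (ω : Cfg G) :
    ((E.filter (fun e => ω e = true)).card : ENNReal) =
      ∑ e ∈ E, ({ω : Cfg G | ω e = true}).indicator (fun _ => (1 : ENNReal)) ω := by
  classical
  simp only [Set.indicator_apply]
  rw [Finset.sum_ite]
  simp

theorem meas_count {G : Type} [DecidableEq G] (E : Finset (G × G)) :
    Measurable (fun ω : Cfg G => ((E.filter (fun e => ω e = true)).card : ENNReal)) := by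
  simp only [count_eq]
  exact Finset.measurable_fun_sum _ fun e _ => measurable_const.indicator (meas_edge e)

theorem lint_count {G : Type} [Group G] [Countable G] [DecidableEq G] (ν : Measure (Cfg G))
    [IsProbabilityMeasure ν] (hν : Inv ν) (P A : Finset G)
    (hP : ∀ᵐ ω ∂ν, ∀ g s : G, ω (g, s) = true → s ∈ P) :
    ∫⁻ ω, (((A ×ˢ P).filter (fun e => ω e = true)).card : ENNReal) ∂ν = A.card * cost ν := by
  classical
  simp only [count_eq]
  rw [lintegral_finsetSum]
  · have h4 : ∀ e : G × G,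
        ∫⁻ ω, ({ω : Cfg G | ω e = true}).indicator (fun _ => (1 : ENNReal)) ω ∂ν =
          ν {ω | ω (1, e.2) = true} := by
      intro e
      rw [lintegral_indicator_const (meas_edge e), one_mul]
      exact inv_edge hν e.1 e.2
    simp only [h4]
    rw [Finset.sum_product]
    simp only [Finset.sum_const, nsmul_eq_mul]
    congr 1
    unfold cost
    rw [tsum_eq_sum (s := P)]
    intro s hs
    rw [measure_eq_zero_iff_ae_notMem]
    filter_upwards [hP] with ω hω h
    exact hs (hω 1 s h)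
  · intro e _
    exact measurable_const.indicator (meas_edge e)

theorem est2 {G : Type} [Group G] [Countable G] [DecidableEq G] (P Q A B V : Finset G)
    (hA : A ⊆ V) (hB : B ⊆ V) (hPA : ∀ p ∈ P, ∀ x ∈ A, p * x ∈ V)
    (hQB : ∀ q ∈ Q, ∀ x ∈ B, q * x ∈ V) (ν₁ ν₂ : Measure (Cfg G)) [IsProbabilityMeasure ν₁]
    [IsProbabilityMeasure ν₂] (h1i : Inv ν₁) (h2i : Inv ν₂)
    (h1f : ∀ᵐ ω ∂ν₁, Forest (∅ : Set G) ω)
    (h1P : ∀ᵐ ω ∂ν₁, ∀ g s : G, ω (g, s) = true → s ∈ P)
    (h2f : ∀ᵐ ω ∂ν₂, Forest (P : Set G) ω)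
    (h2Q : ∀ᵐ ω ∂ν₂, ∀ g s : G, ω (g, s) = true → s ∈ Q) :
    (A.card : ENNReal) * cost ν₁ + B.card * cost ν₂ ≤ (V.card : ENNReal) := by
  classical
  rw [← lint_count ν₁ h1i P A h1P, ← lint_count ν₂ h2i Q B h2Q]
  have hstep : ∀ᵐ ω₂ ∂ν₂,
      (∫⁻ ω₁, (((A ×ˢ P).filter (fun e => ω₁ e = true)).card : ENNReal) ∂ν₁) +
        (((B ×ˢ Q).filter (fun e => ω₂ e = true)).card : ENNReal) ≤ (V.card : ENNReal) := by
    filter_upwards [h2f] with ω₂ hω₂
    calc (∫⁻ ω₁, (((A ×ˢ P).filter (fun e => ω₁ e = true)).card : ENNReal) ∂ν₁) +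
        (((B ×ˢ Q).filter (fun e => ω₂ e = true)).card : ENNReal)
        = ∫⁻ ω₁, ((((A ×ˢ P).filter (fun e => ω₁ e = true)).card : ENNReal) +
        (((B ×ˢ Q).filter (fun e => ω₂ e = true)).card : ENNReal)) ∂ν₁ := by
          rw [lintegral_add_right _ measurable_const]
          simp
      _ ≤ ∫⁻ ω₁, (V.card : ENNReal) ∂ν₁ := by
          refine lintegral_mono_ae ?_
          filter_upwards [h1f, h1P] with ω₁ a b
          exact_mod_cast det2 P Q A B V ω₁ ω₂ a b hω₂ hA hB hPA hQB
      _ = V.card := by simp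
  calc (∫⁻ ω₁, (((A ×ˢ P).filter (fun e => ω₁ e = true)).card : ENNReal) ∂ν₁) +
      ∫⁻ ω₂, (((B ×ˢ Q).filter (fun e => ω₂ e = true)).card : ENNReal) ∂ν₂
      = ∫⁻ ω₂, ((∫⁻ ω₁, (((A ×ˢ P).filter (fun e => ω₁ e = true)).card : ENNReal) ∂ν₁) +
        (((B ×ˢ Q).filter (fun e => ω₂ e = true)).card : ENNReal)) ∂ν₂ := by
        rw [lintegral_add_left measurable_const]
        simp
    _ ≤ ∫⁻ ω₂, (V.card : ENNReal) ∂ν₂ := lintegral_mono_ae hstep
    _ = V.card := by simp

theorem est1 {G : Type} [Group G] [Countable G] [DecidableEq G] (P Q A B V : Finset G)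
    (hinf : (Subgroup.closure (P : Set G) : Set G).Infinite)
    (hA : A ⊆ V) (hB : B ⊆ V) (hPA : ∀ p ∈ P, ∀ x ∈ A, p * x ∈ V)
    (hQB : ∀ q ∈ Q, ∀ x ∈ B, q * x ∈ V) (ν₂ : Measure (Cfg G))
    [IsProbabilityMeasure ν₂] (h2i : Inv ν₂)
    (h2f : ∀ᵐ ω ∂ν₂, Forest (P : Set G) ω)
    (h2Q : ∀ᵐ ω ∂ν₂, ∀ g s : G, ω (g, s) = true → s ∈ Q) :
    (A.card : ENNReal) + B.card * cost ν₂ ≤ (V.card : ENNReal) := by
  classical
  rw [← lint_count ν₂ h2i Q B h2Q]
  calc (A.card : ENNReal) +
      ∫⁻ ω₂, (((B ×ˢ Q).filter (fun e => ω₂ e = true)).card : ENNReal) ∂ν₂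
      = ∫⁻ ω₂, ((A.card : ENNReal) +
        (((B ×ˢ Q).filter (fun e => ω₂ e = true)).card : ENNReal)) ∂ν₂ := by
        rw [lintegral_add_left measurable_const]
        simp
    _ ≤ ∫⁻ ω₂, (V.card : ENNReal) ∂ν₂ := by
        refine lintegral_mono_ae ?_
        filter_upwards [h2f] with ω₂ hω₂
        exact_mod_cast det1 P Q A B V ω₂ hinf hω₂ hA hB hPA hQB
    _ = V.card := by simp

end Pool.Agent.W246.TN
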