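import Pool.Agent.W246.TN.Main

/-!
# Tarski numbers of groups of cost at least two (MP_354e85_al)

Pairs generating finite groups, and from a selection to a paradoxical decomposition.
-/

set_option autoImplicit false
set_option linter.unusedVariables false

open MeasureTheory

namespace Pool.Agent.W246.TN

open Pool.Agent.W336.CS Pool.Agent.W22.CS

/-- a forest on a nonempty finite set has fewer edges than vertices -/
theorem cnt1 {G : Type} [Group G] [DecidableEq G] (V : Finset G) (v₀ : G) (hv : v₀ ∈ V)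
    (ω : Cfg G) (Z : Finset (G × G))
    (hZ : ∀ e ∈ Z, e.1 ∈ V ∧ e.2 * e.1 ∈ V ∧ ω e = true ∧ Bridge (∅ : Set G) ω e) :
    Z.card + 1 ≤ V.card := by
  classical
  have hgoal : Z.card ≤ (V.erase v₀).card := by
    let L : (Z → ZMod 2) →ₗ[ZMod 2] ({x // x ∈ V.erase v₀} → ZMod 2) :=
      { toFun := fun c t => ∑ e : Z, c e * (fe (∅ : Set G) ω e t - fe (∅ : Set G) ω e v₀)
        map_add' := by
          intro c d
          funext t
          simp only [Pi.add_apply, add_mul, Finset.sum_add_distrib]
        map_smul' := by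
          intro a c
          funext t
          simp only [Pi.smul_apply, smul_eq_mul, RingHom.id_apply, Finset.mul_sum, mul_assoc] }
    have hinj : Function.Injective L := by
      rw [← LinearMap.ker_eq_bot, LinearMap.ker_eq_bot']
      intro c hc
      set f : G → ZMod 2 := fun x =>
        ∑ e : Z, c e * (fe (∅ : Set G) ω e x - fe (∅ : Set G) ω e v₀) with hf
      have hfT : ∀ t ∈ V.erase v₀, f t = 0 := fun t ht => congrFun hc ⟨t, ht⟩
      have hfV : ∀ x ∈ V, f x = 0 := by
        intro x hx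
        by_cases h : x = v₀
        · subst h
          simp [hf]
        · exact hfT x (Finset.mem_erase.2 ⟨h, hx⟩)
      funext e
      have h1 := hfV _ (hZ e e.2).1
      have h2 := hfV _ (hZ e e.2).2.1
      have h3 : f (e : G × G).1 - f ((e : G × G).2 * (e : G × G).1) = c e := by
        rw [hf]
        simp only
        rw [← Finset.sum_sub_distrib, Finset.sum_eq_single e]
        · rw [fe_src, fe_tgt (hZ e e.2).2.2.2]
          ring
        · intro e' _ hne
          rw [fe_edge (e := (e' : G × G)) (e' := (e : G × G)) (fun h => hne (Subtype.ext h.symm))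
            (hZ e e.2).2.2.1]
          ring
        · intro h
          exact absurd (Finset.mem_univ _) h
      rw [h1, h2] at h3
      simpa using h3.symm
    have h1 := LinearMap.finrank_le_finrank_of_injective hinj
    rw [Module.finrank_fintype_fun_eq_card, Module.finrank_fintype_fun_eq_card,
      Fintype.card_coe, Fintype.card_coe] at h1
    exact h1
  rw [Finset.card_erase_of_mem hv] at hgoal
  have := Finset.card_pos.2 ⟨v₀, hv⟩
  omega

/-- Finite groups have small forests. -/
theorem w_lt_one {G : Type} [Group G] [Countable G] [DecidableEq G] (P : Finset G)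
    (hfin : (Subgroup.closure (P : Set G) : Set G).Finite) : w (∅ : Set G) P < 1 := by
  classical
  set V : Finset G := hfin.toFinset with hV
  have hmem : ∀ x, x ∈ V ↔ x ∈ Subgroup.closure (P : Set G) := fun x => by
    rw [hV, Set.Finite.mem_toFinset]; rfl
  have h1V : (1 : G) ∈ V := (hmem 1).2 (Subgroup.one_mem _)
  have hcl : ∀ p ∈ P, ∀ x ∈ V, p * x ∈ V := fun p hp x hx =>
    (hmem _).2 (Subgroup.mul_mem _ (Subgroup.subset_closure (Finset.mem_coe.2 hp)) ((hmem x).1 hx))
  have hest : ∀ ν : Fam G (∅ : Set G) P, (V.card : ENNReal) * cost ν.1 + 1 ≤ V.card := by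
    rintro ⟨ν, h1, h2, h3, h4⟩
    simp only
    rw [← lint_count ν h2 P V h4]
    calc (∫⁻ ω, (((V ×ˢ P).filter (fun e => ω e = true)).card : ENNReal) ∂ν) + 1
        = ∫⁻ ω, ((((V ×ˢ P).filter (fun e => ω e = true)).card : ENNReal) + 1) ∂ν := by
          rw [lintegral_add_right _ measurable_const]
          simp
      _ ≤ ∫⁻ ω, (V.card : ENNReal) ∂ν := by
          refine lintegral_mono_ae ?_
          filter_upwards [h3] with ω hω
          have h5 := cnt1 V 1 h1V ω ((V ×ˢ P).filter (fun e => ω e = true)) (by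
            intro e he
            rw [Finset.mem_filter, Finset.mem_product] at he
            exact ⟨he.1.1, hcl _ he.1.2 _ he.1.1, he.2, hω e he.2⟩)
          exact_mod_cast h5
      _ = V.card := by simp
  have hsup : (V.card : ENNReal) * w (∅ : Set G) P + 1 ≤ V.card := by
    unfold w
    rw [ENNReal.mul_iSup, ENNReal.iSup_add]
    exact iSup_le hest
  by_contra hcon
  push Not at hcon
  have h6 : (V.card : ENNReal) + 1 ≤ V.card := by
    refine le_trans ?_ hsup
    gcongr
    calc (V.card : ENNReal) = V.card * 1 := (mul_one _).symm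
      _ ≤ V.card * w (∅ : Set G) P := by gcongr
  have h7 : V.card + 1 ≤ V.card := by exact_mod_cast h6
  omega

/-- In a group of cost at least 2 generated by `P` and one more element, `P` generates an
infinite subgroup. -/
theorem infinite_of_cost {G : Type} [Group G] [Countable G] [DecidableEq G] (P Q : Finset G)
    (hQ : ((Q : Set G) \ P).Subsingleton)
    (hgen : Subgroup.closure ((P : Set G) ∪ (Q : Set G)) = ⊤)
    (hcost : ∀ c : ENNReal, c < 2 → ¬ CostLe G c) :
    (Subgroup.closure (P : Set G) : Set G).Infinite := by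
  intro hfin
  have hgen' : Subgroup.closure ((P : Set G) ∪ ((Q \ P : Finset G) : Set G)) = ⊤ := by
    rw [← hgen, Finset.coe_sdiff, Set.union_diff_self]
  have h1 := two_le P (Q \ P) hgen' hcost
  have h2 := w_lt_one P hfin
  have h3 := w_le (P : Set G) (Q \ P)
  have hc : (Q \ P).card ≤ 1 := by
    rw [Finset.card_le_one]
    intro a ha b hb
    refine hQ ?_ ?_
    · rw [← Finset.coe_sdiff]; exact ha
    · rw [← Finset.coe_sdiff]; exact hb
  have h3' : w (P : Set G) (Q \ P) ≤ 1 := h3.trans (by exact_mod_cast hc)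
  have h4 : w (∅ : Set G) P + w (P : Set G) (Q \ P) < 1 + 1 :=
    ENNReal.add_lt_add_of_lt_of_le (ne_top_of_le_ne_top ENNReal.one_ne_top h3') h2 h3'
  rw [one_add_one_eq_two] at h4
  exact absurd h1 (not_le.2 h4)

/-- a paradoxical decomposition of `G` into at most `N` pieces -/
def Parad (G : Type) [Group G] (N : ℕ) : Prop :=
  ∃ m n : ℕ, m + n ≤ N ∧
    ∃ (A : Fin m → Set G) (B : Fin n → Set G) (g : Fin m → G) (h : Fin n → G),
      (∀ x : G, ∃! p : Fin m ⊕ Fin n, x ∈ Sum.elim A B p) ∧
      (∀ x : G, ∃! i : Fin m, (g i)⁻¹ * x ∈ A i) ∧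
      (∀ x : G, ∃! j : Fin n, (h j)⁻¹ * x ∈ B j)

theorem parad_of_select {G : Type} [Group G] [DecidableEq G] (U T : Finset G) (hU : 1 ∈ U)
    (φ : G ⊕ G → G) (hφ : Function.Injective φ) (hl : ∀ x, φ (Sum.inl x) * x⁻¹ ∈ U)
    (hr : ∀ x, φ (Sum.inr x) * x⁻¹ ∈ T) : Parad G (U.card + T.card) := by
  classical
  obtain ⟨ψ, hψ, hR⟩ := Function.Embedding.schroeder_bernstein_of_rel (f := φ)
    (g := (Sum.inl : G → G ⊕ G)) hφ Sum.inl_injective
    (fun z y => (∀ x, z = Sum.inl x → y * x⁻¹ ∈ U) ∧ (∀ x, z = Sum.inr x → y * x⁻¹ ∈ T))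
    (by
      intro z
      refine ⟨?_, ?_⟩
      · rintro x rfl
        exact hl x
      · rintro x rfl
        exact hr x)
    (by
      intro y
      refine ⟨?_, ?_⟩
      · intro x hx
        rw [Sum.inl_injective hx, mul_inv_cancel]
        exact hU
      · intro x hx
        exact absurd hx (by simp))
  let τ : Fin U.card → G := fun i => (U.equivFin.symm i : G)
  let σ : Fin T.card → G := fun i => (T.equivFin.symm i : G)
  have hτ : Function.Injective τ := fun i j h => U.equivFin.symm.injective (Subtype.ext h)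
  have hσ : Function.Injective σ := fun i j h => T.equivFin.symm.injective (Subtype.ext h)
  have hi : ∀ x : G, ∃ i : Fin U.card, ψ (Sum.inl x) = τ i * x := fun x =>
    ⟨U.equivFin ⟨_, (hR (Sum.inl x)).1 x rfl⟩, by simp [τ]⟩
  have hj : ∀ x : G, ∃ i : Fin T.card, ψ (Sum.inr x) = σ i * x := fun x =>
    ⟨T.equivFin ⟨_, (hR (Sum.inr x)).2 x rfl⟩, by simp [σ]⟩
  choose i hi using hi
  choose j hj using hj
  refine ⟨U.card, T.card, le_rfl, fun k => {y | ∃ x, i x = k ∧ ψ (Sum.inl x) = y},
    fun k => {y | ∃ x, j x = k ∧ ψ (Sum.inr x) = y}, fun k => (τ k)⁻¹, fun k => (σ k)⁻¹,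
    ?_, ?_, ?_⟩
  · intro y
    obtain ⟨z, hz⟩ := hψ.2 y
    rcases z with x | x
    · refine ⟨Sum.inl (i x), ⟨x, rfl, hz⟩, ?_⟩
      rintro (k | k) ⟨x', hx', hy'⟩
      · have := Sum.inl_injective (hψ.1 (hy'.trans hz.symm))
        subst this
        rw [hx']
      · exact absurd (hψ.1 (hy'.trans hz.symm)) (by simp)
    · refine ⟨Sum.inr (j x), ⟨x, rfl, hz⟩, ?_⟩
      rintro (k | k) ⟨x', hx', hy'⟩
      · exact absurd (hψ.1 (hy'.trans hz.symm)) (by simp)
      · have := Sum.inr_injective (hψ.1 (hy'.trans hz.symm))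
        subst this
        rw [hx']
  · intro x
    refine ⟨i x, ⟨x, rfl, by rw [hi x, inv_inv]⟩, ?_⟩
    rintro k ⟨x', hx', hy'⟩
    rw [hi x', inv_inv, hx'] at hy'
    have h1 : x' = x := mul_left_cancel hy'
    rw [← hx', h1]
  · intro x
    refine ⟨j x, ⟨x, rfl, by rw [hj x, inv_inv]⟩, ?_⟩
    rintro k ⟨x', hx', hy'⟩
    rw [hj x', inv_inv, hx'] at hy'
    have h1 : x' = x := mul_left_cancel hy'
    rw [← hx', h1]

theorem Parad.mono {G : Type} [Group G] {N N' : ℕ} (h : Parad G N) (hN : N ≤ N') :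
    Parad G N' := by
  obtain ⟨m, n, h1, h2⟩ := h
  exact ⟨m, n, h1.trans hN, h2⟩

/-- The main theorem. -/
theorem main {G H : Type} [Group G] [Group H] [Countable H] (ι : H →* G)
    (hι : Function.Injective ι) (P Q : Finset H)
    (hgen : Subgroup.closure ((P : Set H) ∪ (Q : Set H)) = ⊤)
    (hcost : ∀ c : ENNReal, c < 2 → ¬ CostLe H c)
    (hinfP : (Subgroup.closure (P : Set H) : Set H).Infinite)
    (hinfQ : (Subgroup.closure (Q : Set H) : Set H).Infinite) :
    Parad G (P.card + Q.card + 2) := by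
  classical
  obtain ⟨φ, hφ, hl, hr⟩ := select (insert 1 P) (insert 1 Q)
    (expand P Q hgen hcost hinfP hinfQ)
  obtain ⟨ψ, hψ, hl', hr'⟩ := select_up ι hι (insert 1 P) (insert 1 Q) φ hφ hl hr
  have hU : (1 : G) ∈ (insert 1 P).image ι :=
    Finset.mem_image.2 ⟨1, Finset.mem_insert_self _ _, map_one ι⟩
  refine (parad_of_select _ _ hU ψ hψ hl' hr').mono ?_
  have h1 : ((insert 1 P).image ι).card ≤ P.card + 1 :=
    Finset.card_image_le.trans (Finset.card_insert_le _ _)
  have h2 : ((insert 1 Q).image ι).card ≤ Q.card + 1 :=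
    Finset.card_image_le.trans (Finset.card_insert_le _ _)
  omega

end Pool.Agent.W246.TN
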