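import Pool.Agent.W246.TN.Count

/-!
# Tarski numbers of groups of cost at least two (MP_354e85_al)

The expansion inequality and the paradoxical decomposition.
-/

set_option autoImplicit false
set_option linter.unusedVariables false

open MeasureTheory

namespace Pool.Agent.W246.TN

open Pool.Agent.W336.CS Pool.Agent.W22.CS

/-- invariant random forests relative to `B` with labels in `S` -/
def Fam (G : Type) [Group G] [DecidableEq G] (B : Set G) (S : Finset G) : Type :=
  {ν : Measure (Cfg G) // IsProbabilityMeasure ν ∧ Inv ν ∧ (∀ᵐ ω ∂ν, Forest B ω) ∧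
    ∀ᵐ ω ∂ν, ∀ g s : G, ω (g, s) = true → s ∈ S}

instance {G : Type} [Group G] [Countable G] [DecidableEq G] (B : Set G) (S : Finset G) :
    Nonempty (Fam G B S) := by
  refine ⟨⟨Measure.dirac (fun _ => false), inferInstance, ?_, ?_, ?_⟩⟩
  · intro h
    rw [Measure.map_dirac' (measurable_shift h)]
    rfl
  · rw [ae_dirac_eq]
    refine Filter.eventually_pure.2 ?_
    intro e he
    simp at he
  · rw [ae_dirac_eq]
    refine Filter.eventually_pure.2 ?_
    intro g s h
    simp at h

/-- the largest cost of an invariant random forest -/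
noncomputable def w {G : Type} [Group G] [DecidableEq G] (B : Set G) (S : Finset G) : ENNReal :=
  ⨆ ν : Fam G B S, cost ν.1

theorem w_le {G : Type} [Group G] [Countable G] [DecidableEq G] (B : Set G) (S : Finset G) :
    w B S ≤ (S.card : ENNReal) := by
  unfold w
  refine iSup_le fun ν => ?_
  obtain ⟨ν, h1, h2, h3, h4⟩ := ν
  have h5 := lint_count ν h2 S {1} h4
  rw [Finset.card_singleton, Nat.cast_one, one_mul] at h5
  simp only
  rw [← h5]
  calc ∫⁻ ω, (((({1} : Finset G) ×ˢ S).filter (fun e => ω e = true)).card : ENNReal) ∂ν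
      ≤ ∫⁻ ω, (S.card : ENNReal) ∂ν := by
        refine lintegral_mono fun ω => ?_
        have h6 : ((({1} : Finset G) ×ˢ S).filter (fun e => ω e = true)).card ≤ S.card := by
          refine (Finset.card_filter_le _ _).trans ?_
          rw [Finset.card_product, Finset.card_singleton, one_mul]
        exact Nat.cast_le.2 h6
    _ = S.card := by simp

theorem rc_w {G : Type} [Group G] [Countable G] [DecidableEq G] (B : Set G) (S : Finset G)
    (ε : ENNReal) (hε : 0 < ε) : RC B (S : Set G) (w B S + ε) :=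
  all_fe G B S (w B S) ε hε (fun ν h1 h2 h3 h4 =>
    le_iSup (fun ν : Fam G B S => cost ν.1) ⟨ν, h1, h2, h3, h4⟩)

theorem two_le {G : Type} [Group G] [Countable G] [DecidableEq G] (P Q : Finset G)
    (hgen : Subgroup.closure ((P : Set G) ∪ (Q : Set G)) = ⊤)
    (hcost : ∀ c : ENNReal, c < 2 → ¬ CostLe G c) :
    2 ≤ w (∅ : Set G) P + w (P : Set G) Q := by
  by_contra hcon
  push Not at hcon
  obtain ⟨d, hd1, hd2⟩ := exists_between hcon
  have hε : 0 < (d - (w (∅ : Set G) P + w (P : Set G) Q)) / 2 :=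
    ENNReal.div_pos (tsub_pos_of_lt hd1).ne' (by simp)
  set ε := (d - (w (∅ : Set G) P + w (P : Set G) Q)) / 2 with hεd
  refine hcost d hd2 ?_
  have hch := chain Pool.Agent.W401.CS.real (G := G) (Equiv.refl ℕ) (fun a b : ℕ => a < b)
    Nat.lt_wfRel.wf
    (fun i => if i = 1 then (P : Set G) else ∅)
    (fun i => if i = 0 then (P : Set G) else if i = 1 then (Q : Set G) else ∅)
    (fun i => if i = 0 then w (∅ : Set G) P + ε else if i = 1 then w (P : Set G) Q + ε else 0)
    (by
      intro i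
      rcases i with _ | _ | i
      · simpa using rc_w (∅ : Set G) P ε hε
      · simpa using rc_w (P : Set G) Q ε hε
      · simpa using RC.empty (∅ : Set G) 0)
    (by
      intro i v hv
      rcases i with _ | _ | i
      · simp at hv
      · refine Subgroup.subset_closure ?_
        simp only [Set.mem_iUnion]
        refine ⟨0, Nat.zero_lt_one, ?_⟩
        simpa using hv
      · simp at hv)
    (by
      rw [eq_top_iff, ← hgen]
      refine Subgroup.closure_mono ?_
      intro x hx
      rcases hx with hx | hx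
      · exact Set.mem_iUnion.2 ⟨0, by simpa using hx⟩
      · exact Set.mem_iUnion.2 ⟨1, by simpa using hx⟩)
  refine hch.mono ?_
  rw [tsum_eq_sum (s := {0, 1})]
  · rw [Finset.sum_pair (by norm_num)]
    simp only [if_true, one_ne_zero, if_false]
    calc w (∅ : Set G) P + ε + (w (P : Set G) Q + ε)
        = (w (∅ : Set G) P + w (P : Set G) Q) + (ε + ε) := by ring
      _ = (w (∅ : Set G) P + w (P : Set G) Q) +
          (d - (w (∅ : Set G) P + w (P : Set G) Q)) := by rw [hεd, ENNReal.add_halves]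
      _ = d := add_tsub_cancel_of_le hd1.le
      _ ≤ d := le_rfl
  · intro i hi
    have h0 : i ≠ 0 := fun h => hi (by simp [h])
    have h1 : i ≠ 1 := fun h => hi (by simp [h])
    simp [h0, h1]

/-- The expansion inequality when the first set is the larger one. -/
theorem key {G : Type} [Group G] [Countable G] [DecidableEq G] (P Q : Finset G)
    (hgen : Subgroup.closure ((P : Set G) ∪ (Q : Set G)) = ⊤)
    (hcost : ∀ c : ENNReal, c < 2 → ¬ CostLe G c)
    (hinf : (Subgroup.closure (P : Set G) : Set G).Infinite) (A B V : Finset G)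
    (hA : A ⊆ V) (hB : B ⊆ V) (hPA : ∀ p ∈ P, ∀ x ∈ A, p * x ∈ V)
    (hQB : ∀ q ∈ Q, ∀ x ∈ B, q * x ∈ V) (hAB : B.card ≤ A.card) :
    A.card + B.card ≤ V.card := by
  have h2 := two_le P Q hgen hcost
  have hP := w_le (∅ : Set G) P
  have hQ := w_le (P : Set G) Q
  have e2 : (A.card : ENNReal) * w (∅ : Set G) P + B.card * w (P : Set G) Q ≤ V.card := by
    unfold w
    rw [ENNReal.mul_iSup, ENNReal.mul_iSup]
    refine ENNReal.iSup_add_iSup_le fun ν₁ ν₂ => ?_
    obtain ⟨ν₁, a1, a2, a3, a4⟩ := ν₁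
    obtain ⟨ν₂, b1, b2, b3, b4⟩ := ν₂
    exact est2 P Q A B V hA hB hPA hQB ν₁ ν₂ a2 b2 a3 a4 b3 b4
  have e1 : (A.card : ENNReal) + B.card * w (P : Set G) Q ≤ V.card := by
    unfold w
    rw [ENNReal.mul_iSup, ENNReal.add_iSup]
    refine iSup_le fun ν₂ => ?_
    obtain ⟨ν₂, b1, b2, b3, b4⟩ := ν₂
    exact est1 P Q A B V hinf hA hB hPA hQB ν₂ b2 b3 b4
  have hPt : w (∅ : Set G) P ≠ ⊤ := ne_top_of_le_ne_top (ENNReal.natCast_ne_top _) hP
  have hQt : w (P : Set G) Q ≠ ⊤ := ne_top_of_le_ne_top (ENNReal.natCast_ne_top _) hQ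
  lift w (∅ : Set G) P to NNReal using hPt with p hp
  lift w (P : Set G) Q to NNReal using hQt with q hq
  have r2 : (2 : ℝ) ≤ p + q := by exact_mod_cast h2
  have r3 : (A.card : ℝ) * p + B.card * q ≤ V.card := by exact_mod_cast e2
  have r4 : (A.card : ℝ) + B.card * q ≤ V.card := by exact_mod_cast e1
  have r5 : (B.card : ℝ) ≤ A.card := by exact_mod_cast hAB
  have r6 : (0 : ℝ) ≤ B.card := Nat.cast_nonneg _
  have r7 : (A.card : ℝ) + B.card ≤ V.card := by
    rcases le_total (1 : ℝ) p with h | h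
    · nlinarith [mul_nonneg (sub_nonneg.2 h) (sub_nonneg.2 r5),
        mul_nonneg r6 (sub_nonneg.2 r2)]
    · nlinarith [mul_nonneg r6 (show (0 : ℝ) ≤ q - 1 by linarith)]
  exact_mod_cast r7

open scoped Pointwise in
/-- The expansion inequality. -/
theorem expand {G : Type} [Group G] [Countable G] [DecidableEq G] (P Q : Finset G)
    (hgen : Subgroup.closure ((P : Set G) ∪ (Q : Set G)) = ⊤)
    (hcost : ∀ c : ENNReal, c < 2 → ¬ CostLe G c)
    (hinfP : (Subgroup.closure (P : Set G) : Set G).Infinite)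
    (hinfQ : (Subgroup.closure (Q : Set G) : Set G).Infinite) (A B : Finset G) :
    A.card + B.card ≤ (insert 1 P * A ∪ insert 1 Q * B).card := by
  have hA : A ⊆ insert 1 P * A ∪ insert 1 Q * B := fun x hx =>
    Finset.mem_union_left _ (by
      have := Finset.mul_mem_mul (Finset.mem_insert_self (1 : G) P) hx
      rwa [one_mul] at this)
  have hB : B ⊆ insert 1 P * A ∪ insert 1 Q * B := fun x hx =>
    Finset.mem_union_right _ (by
      have := Finset.mul_mem_mul (Finset.mem_insert_self (1 : G) Q) hx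
      rwa [one_mul] at this)
  have hPA : ∀ p ∈ P, ∀ x ∈ A, p * x ∈ insert 1 P * A ∪ insert 1 Q * B := fun p hp x hx =>
    Finset.mem_union_left _ (Finset.mul_mem_mul (Finset.mem_insert_of_mem hp) hx)
  have hQB : ∀ q ∈ Q, ∀ x ∈ B, q * x ∈ insert 1 P * A ∪ insert 1 Q * B := fun q hq x hx =>
    Finset.mem_union_right _ (Finset.mul_mem_mul (Finset.mem_insert_of_mem hq) hx)
  rcases le_total B.card A.card with h | h
  · exact key P Q hgen hcost hinfP A B _ hA hB hPA hQB h
  · rw [add_comm]
    rw [Set.union_comm] at hgen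
    exact key Q P hgen hcost hinfQ B A _ hB hA hQB hPA h

open scoped Pointwise in
/-- A selection of translates. -/
theorem select {G : Type} [Group G] [DecidableEq G] (U T : Finset G)
    (hUT : ∀ A B : Finset G, A.card + B.card ≤ (U * A ∪ T * B).card) :
    ∃ φ : G ⊕ G → G, Function.Injective φ ∧ (∀ x, φ (Sum.inl x) * x⁻¹ ∈ U) ∧
      ∀ x, φ (Sum.inr x) * x⁻¹ ∈ T := by
  classical
  let r : G ⊕ G → Finset G := Sum.elim (fun x => U * {x}) (fun x => T * {x})
  have h5 : ∀ F : Finset (G ⊕ G), F.card ≤ (F.biUnion r).card := by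
    intro F
    rw [← Finset.card_toLeft_add_card_toRight]
    refine (hUT F.toLeft F.toRight).trans (Finset.card_le_card ?_)
    intro y hy
    rw [Finset.mem_biUnion]
    rcases Finset.mem_union.mp hy with hy | hy
    · obtain ⟨u, hu, x, hx, rfl⟩ := Finset.mem_mul.mp hy
      exact ⟨Sum.inl x, Finset.mem_toLeft.mp hx,
        Finset.mul_mem_mul hu (Finset.mem_singleton_self x)⟩
    · obtain ⟨u, hu, x, hx, rfl⟩ := Finset.mem_mul.mp hy
      exact ⟨Sum.inr x, Finset.mem_toRight.mp hx,
        Finset.mul_mem_mul hu (Finset.mem_singleton_self x)⟩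
  obtain ⟨φ, hφ, hφr⟩ := (Finset.all_card_le_biUnion_card_iff_exists_injective r).mp h5
  refine ⟨φ, hφ, fun x => ?_, fun x => ?_⟩
  · obtain ⟨u, hu, y, hy, hxy⟩ := Finset.mem_mul.mp (hφr (Sum.inl x))
    rw [Finset.mem_singleton] at hy
    subst hy
    rw [← hxy, mul_inv_cancel_right]
    exact hu
  · obtain ⟨u, hu, y, hy, hxy⟩ := Finset.mem_mul.mp (hφr (Sum.inr x))
    rw [Finset.mem_singleton] at hy
    subst hy
    rw [← hxy, mul_inv_cancel_right]
    exact hu

/-- Selections extend to larger groups. -/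
theorem select_up {G H : Type} [Group G] [Group H] [DecidableEq G] (ι : H →* G)
    (hι : Function.Injective ι) (U T : Finset H) (φ : H ⊕ H → H) (hφ : Function.Injective φ)
    (hl : ∀ x, φ (Sum.inl x) * x⁻¹ ∈ U) (hr : ∀ x, φ (Sum.inr x) * x⁻¹ ∈ T) :
    ∃ ψ : G ⊕ G → G, Function.Injective ψ ∧ (∀ x, ψ (Sum.inl x) * x⁻¹ ∈ U.image ι) ∧
      ∀ x, ψ (Sum.inr x) * x⁻¹ ∈ T.image ι := by
  classical
  set rep : G → G := fun x => (Quotient.mk (QuotientGroup.rightRel ι.range) x).out with hrep
  have hmk : ∀ x, Quotient.mk (QuotientGroup.rightRel ι.range) (rep x) =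
      Quotient.mk (QuotientGroup.rightRel ι.range) x := fun x => Quotient.out_eq _
  have hmem : ∀ x, ∃ h : H, ι h = x * (rep x)⁻¹ := by
    intro x
    have h1 := QuotientGroup.rightRel_apply.1 (Quotient.exact (hmk x))
    exact h1
  choose η hη using hmem
  have hx : ∀ x, x = ι (η x) * rep x := fun x => by rw [hη]; simp
  have hrep2 : ∀ (h : H) (x : G), rep (ι h * rep x) = rep x := by
    intro h x
    have h1 : Quotient.mk (QuotientGroup.rightRel ι.range) (ι h * rep x) =
        Quotient.mk (QuotientGroup.rightRel ι.range) x := by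
      rw [← hmk x]
      apply Quotient.sound
      change QuotientGroup.rightRel ι.range _ _
      rw [QuotientGroup.rightRel_apply]
      refine ⟨h⁻¹, ?_⟩
      simp
    show (Quotient.mk (QuotientGroup.rightRel ι.range) (ι h * rep x)).out = _
    rw [h1]
  let ψ : G ⊕ G → G := Sum.elim (fun x => ι (φ (Sum.inl (η x))) * rep x)
    (fun x => ι (φ (Sum.inr (η x))) * rep x)
  have hcases : ∀ z : G ⊕ G, ∃ x : G, ∃ y : H ⊕ H, ψ z = ι (φ y) * rep x ∧
      ((z = Sum.inl x ∧ y = Sum.inl (η x)) ∨ (z = Sum.inr x ∧ y = Sum.inr (η x))) := by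
    rintro (x | x)
    · exact ⟨x, _, rfl, Or.inl ⟨rfl, rfl⟩⟩
    · exact ⟨x, _, rfl, Or.inr ⟨rfl, rfl⟩⟩
  refine ⟨ψ, ?_, ?_, ?_⟩
  · intro z z' hzz
    obtain ⟨x, y, h1, h2⟩ := hcases z
    obtain ⟨x', y', h1', h2'⟩ := hcases z'
    rw [h1, h1'] at hzz
    have hr1 : rep x = rep x' := by
      rw [← hrep2 (φ y) x, hzz, hrep2]
    rw [hr1] at hzz
    have h3 : y = y' := hφ (hι (mul_right_cancel hzz))
    subst h3
    rcases h2 with ⟨rfl, hy⟩ | ⟨rfl, hy⟩ <;> rcases h2' with ⟨rfl, hy'⟩ | ⟨rfl, hy'⟩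
    · have h4 : η x = η x' := Sum.inl_injective (hy.symm.trans hy')
      rw [hx x, hx x', h4, hr1]
    · rw [hy] at hy'
      exact absurd hy' (by simp)
    · rw [hy] at hy'
      exact absurd hy' (by simp)
    · have h4 : η x = η x' := Sum.inr_injective (hy.symm.trans hy')
      rw [hx x, hx x', h4, hr1]
  · intro x
    refine Finset.mem_image.2 ⟨_, hl (η x), ?_⟩
    show _ = ι (φ (Sum.inl (η x))) * rep x * x⁻¹
    rw [map_mul, map_inv, hη]
    group
  · intro x
    refine Finset.mem_image.2 ⟨_, hr (η x), ?_⟩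
    show _ = ι (φ (Sum.inr (η x))) * rep x * x⁻¹
    rw [map_mul, map_inv, hη]
    group

end Pool.Agent.W246.TN
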