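import Pool.Agent.W246.TN.Fin

/-!
# Tarski numbers and cost: an infinite amenable subgroup (MP_354e85_al)
-/

set_option autoImplicit false
set_option linter.unusedVariables false

open MeasureTheory

namespace Pool.Agent.W246.TN

open Pool.Agent.W336.CS Pool.Agent.W22.CS
open scoped Pointwise

/-- the `k` largest values -/
theorem top_k {ι : Type} [DecidableEq ι] (f : ι → ℝ) (hf : ∀ i, 0 ≤ f i) (k : ℕ) :
    ∀ (n : ℕ) (S : Finset ι), S.card = k + n → ∃ Q ⊆ S, Q.card = k ∧
      (k : ℝ) * ∑ i ∈ S, f i ≤ S.card * ∑ i ∈ Q, f i := by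
  intro n
  induction n with
  | zero =>
    intro S hS
    refine ⟨S, subset_rfl, by omega, ?_⟩
    rw [hS]
    push_cast
    simp
  | succ n ih =>
    intro S hS
    have hne : S.Nonempty := Finset.card_pos.1 (by omega)
    obtain ⟨s₀, hs₀, hmin⟩ := Finset.exists_min_image S f hne
    have hc : (S.erase s₀).card = k + n := by
      rw [Finset.card_erase_of_mem hs₀]
      omega
    obtain ⟨Q, hQ, hQk, hQs⟩ := ih (S.erase s₀) hc
    refine ⟨Q, hQ.trans (Finset.erase_subset _ _), hQk, ?_⟩
    have h1 : ∑ i ∈ S, f i = f s₀ + ∑ i ∈ S.erase s₀, f i := (Finset.add_sum_erase S f hs₀).symm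
    have h2 : ((S.erase s₀).card : ℝ) * f s₀ ≤ ∑ i ∈ S.erase s₀, f i := by
      rw [← nsmul_eq_mul]
      exact Finset.card_nsmul_le_sum _ _ _ fun i hi => hmin i (Finset.mem_of_mem_erase hi)
    rw [hc] at h2 hQs
    rw [hS]
    push_cast at *
    set F := ∑ i ∈ S.erase s₀, f i with hF
    set R := ∑ i ∈ Q, f i with hR
    rcases Nat.eq_zero_or_pos (k + n) with h0 | h0
    · have hk : k = 0 := by omega
      subst hk
      have hQe : Q = ∅ := Finset.card_eq_zero.1 hQk
      simp [hR, hQe]
    · have hpos : (0 : ℝ) < (k : ℝ) + n := by exact_mod_cast h0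
      rw [h1]
      have hk0 : (0 : ℝ) ≤ k := Nat.cast_nonneg k
      have h3 : ((k : ℝ) + n) * (k * (f s₀ + F)) ≤ ((k : ℝ) + n) * ((k + (n + 1)) * R) := by
        calc ((k : ℝ) + n) * (k * (f s₀ + F))
            = k * ((((k : ℝ) + n) * f s₀) + ((k : ℝ) + n) * F) := by ring
          _ ≤ k * (F + ((k : ℝ) + n) * F) := by gcongr
          _ = ((k : ℝ) + (n + 1)) * (k * F) := by ring
          _ ≤ ((k : ℝ) + (n + 1)) * (((k : ℝ) + n) * R) := by gcongr
          _ = ((k : ℝ) + n) * ((k + (n + 1)) * R) := by ring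
      exact le_of_mul_le_mul_left h3 hpos

open Classical in
/-- restriction of a configuration to the labels in `Q` -/
noncomputable def res {G : Type} (Q : Finset G) (ω : Cfg G) : Cfg G :=
  fun e => if e.2 ∈ Q then ω e else false

theorem res_true {G : Type} {Q : Finset G} {ω : Cfg G} {e : G × G} :
    res Q ω e = true ↔ e.2 ∈ Q ∧ ω e = true := by
  unfold res
  split_ifs with h <;> simp [h]

theorem meas_res {G : Type} (Q : Finset G) : Measurable (res Q : Cfg G → Cfg G) := by
  rw [measurable_pi_iff]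
  intro e
  unfold res
  split_ifs with h
  · exact measurable_pi_apply e
  · exact measurable_const

theorem res_shift {G : Type} [Group G] (Q : Finset G) (h : G) (ω : Cfg G) :
    res Q (shift h ω) = shift h (res Q ω) := by
  funext e
  simp only [res, shift]

theorem forest_res {G : Type} [Group G] [DecidableEq G] {B : Set G} {Q : Finset G} {ω : Cfg G}
    (h : Forest B ω) : Forest B (res Q ω) := by
  intro e he hcon
  rw [res_true] at he
  refine h e he.2 (Conn.mono (Set.Subset.refl _) ?_ hcon)
  intro e' he'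
  by_cases hee : e' = e
  · subst hee
    simp at he'
  · rw [Function.update_of_ne hee] at he' ⊢
    exact (res_true.1 he').2

theorem sum_le_w {G : Type} [Group G] [Countable G] [DecidableEq G] (B : Set G)
    (S Q : Finset G) (ν : Fam G B S) :
    ∑ s ∈ Q, ν.1 {ω | ω (1, s) = true} ≤ w B Q := by
  classical
  obtain ⟨ν, h1, h2, h3, h4⟩ := ν
  simp only
  have hm : Measurable (res Q : Cfg G → Cfg G) := meas_res Q
  have hQ : ∀ᵐ ω ∂(ν.map (res Q)), ∀ g s : G, ω (g, s) = true → s ∈ Q := by
    have hms : MeasurableSet {ω : Cfg G | ∀ g s : G, ω (g, s) = true → s ∈ Q} := by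
      have : {ω : Cfg G | ∀ g s : G, ω (g, s) = true → s ∈ Q} =
          ⋂ g : G, ⋂ s : G, {ω : Cfg G | ω (g, s) = true → s ∈ Q} := by
        ext ω
        simp
      rw [this]
      refine MeasurableSet.iInter fun g => MeasurableSet.iInter fun s => ?_
      by_cases hs : s ∈ Q
      · simp [hs]
      · have : {ω : Cfg G | ω (g, s) = true → s ∈ Q} = {ω : Cfg G | ω (g, s) = true}ᶜ := by
          ext ω
          simp [hs]
        rw [this]
        exact (meas_edge (g, s)).compl
    rw [ae_map_iff hm.aemeasurable hms]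
    refine Filter.Eventually.of_forall fun ω g s h => (res_true.1 h).1
  have hfor : ∀ᵐ ω ∂(ν.map (res Q)), Forest B ω := by
    have hms : MeasurableSet {ω : Cfg G | Forest B ω} := by
      have : {ω : Cfg G | Forest B ω} =
          ⋂ e : G × G, ({ω : Cfg G | ω e = true}ᶜ ∪ {ω : Cfg G | Bridge B ω e}) := by
        ext ω
        simp only [Forest, Set.mem_iInter, Set.mem_union, Set.mem_compl_iff, Set.mem_ofPred_eq]
        refine forall_congr' fun e => ?_
        tauto
      rw [this]
      exact MeasurableSet.iInter fun e => (meas_edge e).compl.union (measurableSet_bridge B e)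
    rw [ae_map_iff hm.aemeasurable hms]
    filter_upwards [h3] with ω hω
    exact forest_res hω
  have hinv : Inv (ν.map (res Q)) := by
    intro h
    rw [Measure.map_map (measurable_shift h) hm]
    have : (shift h ∘ res Q : Cfg G → Cfg G) = res Q ∘ shift h := by
      funext ω
      simp only [Function.comp_apply, res_shift]
    rw [this, ← Measure.map_map hm (measurable_shift h), h2 h]
  have hp : IsProbabilityMeasure (ν.map (res Q)) :=
    Measure.isProbabilityMeasure_map hm.aemeasurable
  have hle := le_iSup (fun ν : Fam G B Q => cost ν.1) ⟨ν.map (res Q), hp, hinv, hfor, hQ⟩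
  refine le_trans ?_ hle
  simp only [cost]
  refine le_trans (le_of_eq ?_) (ENNReal.sum_le_tsum Q)
  refine Finset.sum_congr rfl fun s hs => ?_
  rw [Measure.map_apply hm (meas_edge (1, s))]
  congr 1
  ext ω
  simp only [Set.mem_ofPred_eq, Set.mem_preimage, res_true]
  tauto

/-- Some `k` labels carry the average weight. -/
theorem exists_labels {G : Type} [Group G] [Countable G] [DecidableEq G] (B : Set G)
    (S : Finset G) (k : ℕ) (hk : k ≤ S.card) :
    ∃ Q ⊆ S, Q.card = k ∧ (k : ENNReal) * w B S ≤ S.card * w B Q := by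
  classical
  -- a set with the largest `w`
  have hne : (Finset.powersetCard k S).Nonempty := Finset.powersetCard_nonempty.2 hk
  obtain ⟨Q, hQ, hmax⟩ := Finset.exists_max_image (Finset.powersetCard k S) (fun Q => w B Q) hne
  rw [Finset.mem_powersetCard] at hQ
  refine ⟨Q, hQ.1, hQ.2, ?_⟩
  have hwt : w B Q ≠ ⊤ := ne_top_of_le_ne_top (ENNReal.natCast_ne_top _) (w_le B Q)
  conv_lhs => unfold w
  rw [ENNReal.mul_iSup]
  refine iSup_le fun ν => ?_
  obtain ⟨n, hn⟩ : ∃ n, S.card = k + n := ⟨S.card - k, by omega⟩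
  obtain ⟨R, hR, hRk, hRs⟩ := top_k (fun s => (ν.1 {ω | ω (1, s) = true}).toReal)
    (fun s => ENNReal.toReal_nonneg) k n S hn
  have hfin : ∀ s, ν.1 {ω | ω (1, s) = true} ≠ ⊤ := by
    intro s
    have := ν.2.1
    exact measure_ne_top _ _
  have hcost : cost ν.1 = ∑ s ∈ S, ν.1 {ω | ω (1, s) = true} := by
    unfold cost
    refine tsum_eq_sum fun s hs => ?_
    rw [measure_eq_zero_iff_ae_notMem]
    filter_upwards [ν.2.2.2.2] with ω hω h
    exact hs (hω 1 s h)
  have h1 : (k : ENNReal) * cost ν.1 ≤ S.card * ∑ s ∈ R, ν.1 {ω | ω (1, s) = true} := by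
    rw [hcost]
    have ht1 : (k : ENNReal) * ∑ s ∈ S, ν.1 {ω | ω (1, s) = true} ≠ ⊤ :=
      ENNReal.mul_ne_top (ENNReal.natCast_ne_top _) (ENNReal.sum_ne_top.2 fun s _ => hfin s)
    have ht2 : (S.card : ENNReal) * ∑ s ∈ R, ν.1 {ω | ω (1, s) = true} ≠ ⊤ :=
      ENNReal.mul_ne_top (ENNReal.natCast_ne_top _) (ENNReal.sum_ne_top.2 fun s _ => hfin s)
    rw [← ENNReal.toReal_le_toReal ht1 ht2, ENNReal.toReal_mul, ENNReal.toReal_mul,
      ENNReal.toReal_sum (fun s _ => hfin s), ENNReal.toReal_sum (fun s _ => hfin s),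
      ENNReal.toReal_natCast, ENNReal.toReal_natCast]
    exact hRs
  refine h1.trans ?_
  gcongr
  exact (sum_le_w B S R ν).trans (hmax R (Finset.mem_powersetCard.2 ⟨hR, hRk⟩))

/-- Over an infinite amenable subgroup. -/
theorem rel_le {G : Type} [Group G] [Countable G] [DecidableEq G] (P S : Finset G)
    (hgen : Subgroup.closure ((P : Set G) ∪ (S : Set G)) = ⊤)
    (hF : Fol (Subgroup.closure (P : Set G))) (C : ENNReal)
    (hcost : ∀ c : ENNReal, c < C → ¬ CostLe G c) :
    C ≤ 1 + w (P : Set G) S := by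
  by_contra hcon
  push Not at hcon
  obtain ⟨d, hd1, hd2⟩ := exists_between hcon
  have hε : 0 < (d - (1 + w (P : Set G) S)) / 2 :=
    ENNReal.div_pos (tsub_pos_of_lt hd1).ne' (by simp)
  set ε := (d - (1 + w (P : Set G) S)) / 2 with hεd
  have hrc : RC (∅ : Set G) (P : Set G) (1 + ε) := by
    have h1 := rc_amen Pool.Agent.W22.CS.cnt all_fe (∅ : Finset G) P (by
      have : ((∅ : Finset G) : Set G) ∪ (P : Set G) = P := by simp
      rw [this]
      exact hF) ε hε
    simpa [Subgroup.closure_empty, Subgroup.card_bot] using h1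
  refine hcost d hd2 ?_
  have hch := chain Pool.Agent.W401.CS.real (G := G) (Equiv.refl ℕ) (fun a b : ℕ => a < b)
    Nat.lt_wfRel.wf
    (fun i => if i = 1 then (P : Set G) else ∅)
    (fun i => if i = 0 then (P : Set G) else if i = 1 then (S : Set G) else ∅)
    (fun i => if i = 0 then 1 + ε else if i = 1 then w (P : Set G) S + ε else 0)
    (by
      intro i
      rcases i with _ | _ | i
      · simpa using hrc
      · simpa using rc_w (P : Set G) S ε hε
      · simpa using RC.empty (∅ : Set G) 0)
    (by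
      intro i v hv
      rcases i with _ | _ | i
      · simp at hv
      · refine Subgroup.subset_closure ?_
        simp only [Set.mem_iUnion]
        refine ⟨0, Nat.zero_lt_one, ?_⟩
        simpa using hv
      · simp at hv)
    (by
      rw [eq_top_iff, ← hgen]
      refine Subgroup.closure_mono ?_
      intro x hx
      rcases hx with hx | hx
      · exact Set.mem_iUnion.2 ⟨0, by simpa using hx⟩
      · exact Set.mem_iUnion.2 ⟨1, by simpa using hx⟩)
  refine hch.mono ?_
  rw [tsum_eq_sum (s := {0, 1})]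
  · rw [Finset.sum_pair (by norm_num)]
    simp only [if_true, one_ne_zero, if_false]
    calc 1 + ε + (w (P : Set G) S + ε)
        = (1 + w (P : Set G) S) + (ε + ε) := by ring
      _ = (1 + w (P : Set G) S) + (d - (1 + w (P : Set G) S)) := by
          rw [hεd, ENNReal.add_halves]
      _ = d := add_tsub_cancel_of_le hd1.le
      _ ≤ d := le_rfl
  · intro i hi
    have h0 : i ≠ 0 := fun h => hi (by simp [h])
    have h1 : i ≠ 1 := fun h => hi (by simp [h])
    simp [h0, h1]

/-- Weight at least one over an infinite subgroup is enough. -/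
theorem of_weight {G H : Type} [Group G] [Group H] [Countable H] [DecidableEq H] (ι : H →* G)
    (hι : Function.Injective ι) (P Q : Finset H)
    (hinf : (Subgroup.closure (P : Set H) : Set H).Infinite) (hw : 1 ≤ w (P : Set H) Q) :
    Parad G (P.card + Q.card + 2) := by
  classical
  have hexp : ∀ A B : Finset H, A.card + B.card ≤
      ((insert 1 P : Finset H) * A ∪ (insert 1 Q : Finset H) * B).card := by
    intro A B
    have hA : A ⊆ insert 1 P * A ∪ insert 1 Q * B := fun x hx =>
      Finset.mem_union_left _ (by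
        have := Finset.mul_mem_mul (Finset.mem_insert_self (1 : H) P) hx
        rwa [one_mul] at this)
    have hB : B ⊆ insert 1 P * A ∪ insert 1 Q * B := fun x hx =>
      Finset.mem_union_right _ (by
        have := Finset.mul_mem_mul (Finset.mem_insert_self (1 : H) Q) hx
        rwa [one_mul] at this)
    have hPA : ∀ p ∈ P, ∀ x ∈ A, p * x ∈ insert 1 P * A ∪ insert 1 Q * B := fun p hp x hx =>
      Finset.mem_union_left _ (Finset.mul_mem_mul (Finset.mem_insert_of_mem hp) hx)
    have hQB : ∀ q ∈ Q, ∀ x ∈ B, q * x ∈ insert 1 P * A ∪ insert 1 Q * B := fun q hq x hx =>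
      Finset.mem_union_right _ (Finset.mul_mem_mul (Finset.mem_insert_of_mem hq) hx)
    have e1 : (A.card : ENNReal) + B.card * w (P : Set H) Q ≤
        (insert 1 P * A ∪ insert 1 Q * B).card := by
      unfold w
      rw [ENNReal.mul_iSup, ENNReal.add_iSup]
      refine iSup_le fun ν₂ => ?_
      obtain ⟨ν₂, b1, b2, b3, b4⟩ := ν₂
      exact est1 P Q A B _ hinf hA hB hPA hQB ν₂ b2 b3 b4
    have e2 : (A.card : ENNReal) + B.card ≤ (insert 1 P * A ∪ insert 1 Q * B).card := by
      refine le_trans ?_ e1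
      gcongr
      calc (B.card : ENNReal) = B.card * 1 := (mul_one _).symm
        _ ≤ B.card * w (P : Set H) Q := by gcongr
    exact_mod_cast e2
  obtain ⟨φ, hφ, hl, hr⟩ := select (insert 1 P) (insert 1 Q) hexp
  obtain ⟨ψ, hψ, hl', hr'⟩ := select_up ι hι (insert 1 P) (insert 1 Q) φ hφ hl hr
  have hU : (1 : G) ∈ (insert 1 P).image ι :=
    Finset.mem_image.2 ⟨1, Finset.mem_insert_self _ _, map_one ι⟩
  refine (parad_of_select _ _ hU ψ hψ hl' hr').mono ?_
  have h1 : ((insert 1 P).image ι).card ≤ P.card + 1 :=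
    Finset.card_image_le.trans (Finset.card_insert_le _ _)
  have h2 : ((insert 1 Q).image ι).card ≤ Q.card + 1 :=
    Finset.card_image_le.trans (Finset.card_insert_le _ _)
  omega

/-- The theorem over an infinite amenable subgroup. -/
theorem mainB {G H : Type} [Group G] [Group H] [Countable H] (ι : H →* G)
    (hι : Function.Injective ι) (P S : Finset H)
    (hgen : Subgroup.closure ((P : Set H) ∪ (S : Set H)) = ⊤)
    (hF : Fol (Subgroup.closure (P : Set H)))
    (hinf : (Subgroup.closure (P : Set H) : Set H).Infinite) (k : ℕ) (hk : 0 < k)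
    (hcost : ∀ c : ENNReal, c < 1 + max 1 ((S.card : ENNReal) / k) → ¬ CostLe H c) :
    Parad G (P.card + k + 2) := by
  classical
  have h1 := rel_le P S hgen hF _ hcost
  have h2 : max 1 ((S.card : ENNReal) / k) ≤ w (P : Set H) S :=
    (ENNReal.add_le_add_iff_left ENNReal.one_ne_top).1 h1
  rcases le_total S.card k with h | h
  · exact (of_weight ι hι P S hinf ((le_max_left _ _).trans h2)).mono (by omega)
  · obtain ⟨Q, hQS, hQk, hQ⟩ := exists_labels (P : Set H) S k h
    have h3 : (S.card : ENNReal) / k ≤ w (P : Set H) S := (le_max_right _ _).trans h2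
    have hk0 : (k : ENNReal) ≠ 0 := by exact_mod_cast hk.ne'
    have hS0 : (S.card : ENNReal) ≠ 0 := by exact_mod_cast (by omega : S.card ≠ 0)
    have h4 : (S.card : ENNReal) * 1 ≤ S.card * w (P : Set H) Q := by
      calc (S.card : ENNReal) * 1 = k * ((S.card : ENNReal) / k) := by
            rw [mul_one, ENNReal.mul_div_cancel hk0 (ENNReal.natCast_ne_top _)]
        _ ≤ k * w (P : Set H) S := by gcongr
        _ ≤ S.card * w (P : Set H) Q := hQ
    have h5 : 1 ≤ w (P : Set H) Q :=
      (ENNReal.mul_le_mul_iff_right hS0 (ENNReal.natCast_ne_top _)).1 h4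
    exact (of_weight ι hι P Q hinf h5).mono (by omega)

end Pool.Agent.W246.TN
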